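import Mathlib
import Pool.Agent.Helper332.Separate
import Pool.Agent.Helper332.Selection

set_option autoImplicit false

namespace Pool.Agent.H865.RB

open Cardinal TopologicalSpace

/-- Finite linear combinations of coordinates vanishing on a subspace. -/
def ann {I : Type} (M : Submodule ℝ (I → ℝ)) : Submodule ℝ (I →₀ ℝ) where
  carrier := {n | ∀ m ∈ M, Finsupp.linearCombination ℝ m n = 0}
  zero_mem' := by simp
  add_mem' := by
    intro a b ha hb m hm
    rw [map_add, ha m hm, hb m hm, add_zero]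
  smul_mem' := by
    intro c a ha m hm
    rw [map_smul, ha m hm, smul_zero]

theorem duality {I : Type} (M : Submodule ℝ (I → ℝ))
    (hM : IsClosed (M : Set (I → ℝ))) (x : I → ℝ)
    (hx : ∀ n ∈ ann M, Finsupp.linearCombination ℝ x n = 0) : x ∈ M := by
  classical
  by_contra hxM
  obtain ⟨F, u, hu, hsub⟩ := isOpen_pi_iff.mp hM.isOpen_compl x hxM
  let π : (I → ℝ) →ₗ[ℝ] (F → ℝ) := LinearMap.funLeft ℝ ℝ Subtype.val
  have hnot : π x ∉ M.map π := by
    rintro ⟨m, hm, hmx⟩
    refine hsub ?_ hm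
    intro i hi
    have : m i = x i := congrFun hmx ⟨i, hi⟩
    rw [this]
    exact (hu i hi).2
  obtain ⟨f, hfx, hfM⟩ := Submodule.exists_le_ker_of_notMem hnot
  let n : I →₀ ℝ := ∑ i : F, Finsupp.single (i : I) (f (Pi.single i 1))
  have hval : ∀ m : I → ℝ, Finsupp.linearCombination ℝ m n = f (π m) := by
    intro m
    have h1 : π m = ∑ i : F, m i • (Pi.single i (1 : ℝ) : F → ℝ) := by
      ext j
      simp [π, LinearMap.funLeft_apply, Finset.sum_apply, Pi.single_apply]
    rw [h1, map_sum]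
    simp only [n, map_sum, Finsupp.linearCombination_single, map_smul, smul_eq_mul]
    exact Finset.sum_congr rfl fun i _ => mul_comm _ _
  apply hfx
  rw [← hval]
  apply hx
  intro m hm
  rw [hval]
  exact hfM ⟨m, hm, rfl⟩

/-- Evaluation of a functional on the quotient at the coordinates. -/
noncomputable def ev {I : Type} (M : Submodule ℝ (I → ℝ)) :
    (((I →₀ ℝ) ⧸ ann M) →ₗ[ℝ] ℝ) →ₗ[ℝ] (I → ℝ) where
  toFun θ i := θ (Submodule.Quotient.mk (Finsupp.single i 1))
  map_add' _ _ := rfl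
  map_smul' _ _ := rfl

theorem ev_comb {I : Type} (M : Submodule ℝ (I → ℝ))
    (θ : ((I →₀ ℝ) ⧸ ann M) →ₗ[ℝ] ℝ) (n : I →₀ ℝ) :
    Finsupp.linearCombination ℝ (ev M θ) n = θ (Submodule.Quotient.mk n) := by
  induction n using Finsupp.induction_linear with
  | zero => simp
  | add f g hf hg => rw [map_add, hf, hg, Submodule.Quotient.mk_add, map_add]
  | single a k =>
    rw [Finsupp.linearCombination_single]
    have : (Finsupp.single a k : I →₀ ℝ) = k • Finsupp.single a 1 := by simp
    rw [this, Submodule.Quotient.mk_smul, map_smul]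
    rfl

theorem ev_mem {I : Type} (M : Submodule ℝ (I → ℝ))
    (hM : IsClosed (M : Set (I → ℝ)))
    (θ : ((I →₀ ℝ) ⧸ ann M) →ₗ[ℝ] ℝ) : ev M θ ∈ M := by
  refine duality M hM _ fun n hn => ?_
  rw [ev_comb, (Submodule.Quotient.mk_eq_zero _).mpr hn, map_zero]

theorem ev_injective {I : Type} (M : Submodule ℝ (I → ℝ)) :
    Function.Injective (ev M) := by
  rw [← LinearMap.ker_eq_bot, LinearMap.ker_eq_bot']
  intro θ hθ
  ext n
  have := ev_comb M θ (Finsupp.single n 1)
  rw [hθ] at this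
  simp only [LinearMap.comp_apply]
  simpa using this.symm

/-- The closure of a rational subspace is a real subspace. -/
def clos {I : Type} (G : Submodule ℚ (I → ℝ)) : Submodule ℝ (I → ℝ) where
  carrier := closure (G : Set (I → ℝ))
  zero_mem' := subset_closure G.zero_mem
  add_mem' := by
    intro a b ha hb
    exact map_mem_closure₂ continuous_add ha hb fun x hx y hy => G.add_mem hx hy
  smul_mem' := by
    intro c a ha
    have hc : c ∈ closure (Set.range ((↑) : ℚ → ℝ)) := Rat.denseRange_cast c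
    refine map_mem_closure₂ (f := fun (r : ℝ) (x : I → ℝ) => r • x) continuous_smul hc ha ?_
    rintro _ ⟨q, rfl⟩ y hy
    have h1 : ((q : ℝ) • y) = q • y := by
      ext i
      simp [Rat.smul_def]
    change ((q : ℝ) • y) ∈ G
    rw [h1]
    exact G.smul_mem q hy

theorem exists_dense {I : Type} [Infinite I] (hI : #I ≤ 𝔠) (M : Submodule ℝ (I → ℝ))
    (hM : IsClosed (M : Set (I → ℝ))) :
    ∃ δ : ℕ → (I → ℝ), (∀ k, δ k ∈ M) ∧ (M : Set (I → ℝ)) ⊆ closure (Set.range δ) := by
  classical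
  let X := (I →₀ ℝ) ⧸ ann M
  let b := Module.Basis.ofVectorSpace ℝ X
  have hcard : #(Module.Basis.ofVectorSpaceIndex ℝ X) ≤ #ℝ := by
    refine (mk_subtype_le _).trans ((mk_le_of_surjective (Submodule.Quotient.mk_surjective _)).trans ?_)
    rw [mk_finsupp_of_infinite, mk_real]
    exact max_le hI le_rfl
  obtain ⟨e⟩ := Cardinal.le_def _ _ |>.mp hcard
  obtain ⟨S, hS, hsep⟩ := Pool.Agent.Helper332.Separate.exists_functionals b e
  have : Countable S := hS.to_subtype
  let G : Submodule ℚ (I → ℝ) :=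
    Submodule.span ℚ (Set.range fun θ : S => ev M θ)
  have hGM : ∀ x ∈ G, x ∈ M := by
    have : G ≤ M.restrictScalars ℚ := by
      rw [Submodule.span_le]
      rintro _ ⟨θ, rfl⟩
      exact ev_mem M hM θ
    exact fun x hx => this hx
  have hGc : (G : Set (I → ℝ)).Countable := by
    have : Countable G := by infer_instance
    exact Set.countable_coe_iff.mp this
  obtain ⟨δ, hδ⟩ := hGc.exists_eq_range ⟨0, G.zero_mem⟩
  refine ⟨δ, fun k => hGM _ (by rw [← SetLike.mem_coe, hδ]; exact ⟨k, rfl⟩), ?_⟩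
  rw [← hδ]
  intro x hx
  have hxc : x ∈ clos G := by
    refine duality _ isClosed_closure x fun n hn => ?_
    have hn' : n ∈ ann M := by
      by_contra hnY
      have hne : (Submodule.Quotient.mk n : X) ≠ 0 := by
        rw [Ne, Submodule.Quotient.mk_eq_zero]; exact hnY
      obtain ⟨θ, hθ, hθn⟩ := hsep _ hne
      apply hθn
      rw [← ev_comb]
      apply hn
      exact subset_closure (Submodule.subset_span ⟨⟨θ, hθ⟩, rfl⟩)
    exact hn' x hx
  exact hxc

theorem exists_null {I : Type} [Infinite I] (M : Submodule ℝ (I → ℝ))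
    (hM : IsClosed (M : Set (I → ℝ))) (hI : #I = ℵ₁)
    (hX : ℵ₀ < Module.rank ℝ ((I →₀ ℝ) ⧸ ann M)) :
    ∃ N : ℕ → Submodule ℝ (I → ℝ), (∀ l, N l ≤ M) ∧
      (∀ l, #(I → ℝ) ≤ Module.rank ℝ (N l)) ∧
      ∀ i, ∃ l₀, ∀ l, l₀ ≤ l → ∀ x ∈ N l, x i = 0 := by
  classical
  let X := (I →₀ ℝ) ⧸ ann M
  let b := Module.Basis.ofVectorSpace ℝ X
  let β := Module.Basis.ofVectorSpaceIndex ℝ X
  have hβc : ℵ₀ < #β := by
    rw [b.mk_eq_rank'']; exact hX
  have hβ : Uncountable β := aleph0_lt_mk_iff.mp hβc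
  have hββ : #β = #(β × ℕ) := by
    rw [mk_prod, lift_id, lift_id, mk_nat, mul_aleph0_eq (aleph0_le_mk β)]
  obtain ⟨e⟩ := Cardinal.eq.mp hββ
  let T : ℕ → ((β → ℝ) →ₗ[ℝ] (I → ℝ)) := fun l =>
    (ev M) ∘ₗ (b.constr ℝ).toLinearMap ∘ₗ
      (LinearMap.pi fun j : β => if (e j).2 = l then LinearMap.proj (e j).1 else 0)
  refine ⟨fun l => LinearMap.range (T l), ?_, ?_, ?_⟩
  · rintro l _ ⟨g, rfl⟩
    simp only [T, LinearMap.comp_apply]
    exact ev_mem M hM _
  · intro l
    have hinj : Function.Injective (T l) := by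
      refine (ev_injective M).comp ((b.constr ℝ).injective.comp ?_)
      intro g g' hgg
      ext j
      have h1 := congrFun hgg (e.symm (j, l))
      simpa using h1
    have h2 : #(I → ℝ) ≤ #(β → ℝ) := by
      have h3 : #I ≤ #β := by
        rw [hI, ← succ_aleph0, Order.succ_le_iff]
        exact aleph0_lt_mk
      rw [← power_def, ← power_def]
      exact power_le_power_left (by simp) h3
    calc #(I → ℝ) ≤ #(β → ℝ) := h2
      _ = Module.rank ℝ (β → ℝ) := rank_fun_infinite.symm
      _ = Module.rank ℝ (LinearMap.range (T l)) := (rank_range_of_injective _ hinj).symm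
  · intro i
    let s := (b.repr (Submodule.Quotient.mk (Finsupp.single i 1))).support
    refine ⟨(s.sup fun j => (e j).2) + 1, fun l hl x hx => ?_⟩
    obtain ⟨g, rfl⟩ := hx
    change (b.constr ℝ) (fun j : β => (if (e j).2 = l then
      (LinearMap.proj (e j).1 : (β → ℝ) →ₗ[ℝ] ℝ) else 0) g)
      (Submodule.Quotient.mk (Finsupp.single i 1)) = 0
    rw [Module.Basis.constr_apply, Finsupp.sum]
    refine Finset.sum_eq_zero fun j hj => ?_
    have h4 : (e j).2 ≠ l := by
      have := Finset.le_sup (f := fun j => (e j).2) hj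
      have h5 : (e j).2 ≤ s.sup fun j => (e j).2 := this
      omega
    rw [if_neg h4]
    simp

/-- A closed subspace with dual of uncountable dimension. -/
def Big {I : Type} (M : Submodule ℝ (I → ℝ)) : Prop :=
  IsClosed (M : Set (I → ℝ)) ∧ ℵ₀ < Module.rank ℝ ((I →₀ ℝ) ⧸ ann M)

theorem card_fun {I : Type} (hI : #I = ℵ₁) : #(I → ℝ) = 2 ^ (ℵ₁ : Cardinal.{0}) := by
  rw [← power_def, hI, mk_real, ← two_power_aleph0, ← power_mul,
    aleph0_mul_eq aleph0_lt_aleph_one.le]

theorem card_big {I : Type} [Infinite I] (hI : #I = ℵ₁) :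
    #{M : Submodule ℝ (I → ℝ) // Big M} ≤ #(I → ℝ) := by
  classical
  have hg : ∀ M : Submodule ℝ (I → ℝ), ∃ g : I → (I →₀ ℝ),
      Submodule.span ℝ (Set.range g) = ann M := by
    intro M
    let b := Module.Basis.ofVectorSpace ℝ (ann M)
    have hb : #(Module.Basis.ofVectorSpaceIndex ℝ (ann M)) ≤ #I := by
      rw [b.mk_eq_rank'']
      calc Module.rank ℝ (ann M) ≤ Module.rank ℝ (I →₀ ℝ) := Submodule.rank_le _
        _ = #I := by simp
    obtain ⟨e⟩ := Cardinal.le_def _ _ |>.mp hb
    refine ⟨fun i => if h : ∃ j, e j = i then (b h.choose : I →₀ ℝ) else 0, ?_⟩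
    apply le_antisymm
    · rw [Submodule.span_le]
      rintro _ ⟨i, rfl⟩
      by_cases h : ∃ j, e j = i
      · simp only [dif_pos h]
        exact (b h.choose).2
      · simp only [dif_neg h]
        exact (ann M).zero_mem
    · intro x hx
      have h1 : (⟨x, hx⟩ : ann M) ∈ Submodule.span ℝ (Set.range b) := by
        rw [b.span_eq]; trivial
      have h2 : x ∈ (Submodule.span ℝ (Set.range b)).map (ann M).subtype := ⟨_, h1, rfl⟩
      rw [Submodule.map_span] at h2
      refine Submodule.span_mono ?_ h2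
      rintro _ ⟨_, ⟨j, rfl⟩, rfl⟩
      refine ⟨e j, ?_⟩
      have h3 : ∃ j', e j' = e j := ⟨j, rfl⟩
      simp only [dif_pos h3]
      have h4 : h3.choose = j := e.injective h3.choose_spec
      rw [h4]
      rfl
  choose g hg using hg
  let F : {M : Submodule ℝ (I → ℝ) // Big M} → (I → (I →₀ ℝ)) := fun M => g M.1
  have hF : Function.Injective F := by
    have key : ∀ M M' : {M : Submodule ℝ (I → ℝ) // Big M},
        F M = F M' → M.1 ≤ M'.1 := by
      intro M M' h x hx
      refine duality M'.1 M'.2.1 x fun n hn => ?_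
      have h1 : ann M.1 = ann M'.1 := by
        rw [← hg M.1, ← hg M'.1]
        have : g M.1 = g M'.1 := h
        rw [this]
      rw [← h1] at hn
      exact hn x hx
    intro M M' h
    exact Subtype.ext (le_antisymm (key M M' h) (key M' M h.symm))
  have h1 : #(I →₀ ℝ) ≤ #(I → ℝ) := by
    exact mk_le_of_injective (f := fun x : I →₀ ℝ => (x : I → ℝ)) DFunLike.coe_injective
  calc #{M : Submodule ℝ (I → ℝ) // Big M} ≤ #(I → (I →₀ ℝ)) := mk_le_of_injective hF
    _ = #(I →₀ ℝ) ^ #I := by rw [power_def]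
    _ ≤ #(I → ℝ) ^ #I := power_le_power_right h1
    _ = #(I → ℝ) := by
        rw [card_fun hI, hI, ← power_mul, aleph_mul_aleph, max_self]

end Pool.Agent.H865.RB
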