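import Mathlib
import Pool.Agent.H865.RB.A

set_option autoImplicit false

namespace Pool.Agent.H865.RB

open Cardinal TopologicalSpace

/-- The finitely supported functions. -/
def fin (I : Type) : Submodule ℝ (I → ℝ) where
  carrier := {x | {i | x i ≠ 0}.Finite}
  zero_mem' := by simp
  add_mem' := by
    intro a b ha hb
    refine (Set.Finite.union ha hb).subset ?_
    intro i hi
    by_contra hcon
    simp only [Set.mem_union, not_or] at hcon
    obtain ⟨h1, h2⟩ := hcon
    have h1' : a i = 0 := not_not.mp h1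
    have h2' : b i = 0 := not_not.mp h2
    exact hi (by simp [h1', h2'])
  smul_mem' := by
    intro c a ha
    refine Set.Finite.subset ha ?_
    intro i hi h
    exact hi (by simp [h])

/-- A finitely supported function as a `Finsupp`. -/
noncomputable def fs {I : Type} (x : I → ℝ) (hx : x ∈ fin I) : I →₀ ℝ :=
  Finsupp.ofSupportFinite x (show (Function.support x).Finite from hx)

theorem fs_apply {I : Type} (x : I → ℝ) (hx : x ∈ fin I) (i : I) : fs x hx i = x i := rfl

theorem rank_fin {I : Type} (hI : #I = ℵ₁) : Module.rank ℝ (fin I) < #(I → ℝ) := by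
  classical
  let T : fin I →ₗ[ℝ] (I →₀ ℝ) :=
    { toFun := fun x => fs x.1 x.2
      map_add' := by
        intro x y
        ext i
        rw [Finsupp.add_apply, fs_apply, fs_apply, fs_apply]
        rfl
      map_smul' := by
        intro c x
        ext i
        rw [Finsupp.smul_apply, fs_apply, RingHom.id_apply, fs_apply]
        rfl }
  have hT : Function.Injective T := by
    intro x y hxy
    apply Subtype.ext
    funext i
    have h3 : fs x.1 x.2 i = fs y.1 y.2 i := DFunLike.congr_fun hxy i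
    rwa [fs_apply, fs_apply] at h3
  calc Module.rank ℝ (fin I) ≤ Module.rank ℝ (I →₀ ℝ) := LinearMap.rank_le_of_injective T hT
    _ = ℵ₁ := by simp [hI]
    _ < 2 ^ (ℵ₁ : Cardinal.{0}) := cantor _
    _ = #(I → ℝ) := (card_fun hI).symm

/-- Functions vanishing on a set. -/
def van {I : Type} (S : Set I) : Submodule ℝ (I → ℝ) where
  carrier := {x | ∀ i ∈ S, x i = 0}
  zero_mem' := by intro i _; rfl
  add_mem' := by
    intro a b ha hb i hi
    simp [ha i hi, hb i hi]
  smul_mem' := by
    intro c a ha i hi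
    simp [ha i hi]

theorem rank_van {I : Type} (hI : #I = ℵ₁) (S : Set I) (hS : S.Countable) :
    #(I → ℝ) ≤ Module.rank ℝ (van S) := by
  classical
  have hinf : Infinite I := by
    rw [← aleph0_le_mk_iff, hI]; exact aleph0_lt_aleph_one.le
  have h1 : #(Sᶜ : Set I) = #I := by
    refine mk_compl_of_infinite S (lt_of_le_of_lt (mk_le_aleph0_iff.mpr hS.to_subtype) ?_)
    rw [hI]; exact aleph0_lt_aleph_one
  have hinf2 : Infinite (Sᶜ : Set I) := by
    rw [← aleph0_le_mk_iff, h1]; exact aleph0_le_mk I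
  let T : ((Sᶜ : Set I) → ℝ) →ₗ[ℝ] van S :=
    { toFun := fun g => ⟨fun i => if h : i ∈ S then 0 else g ⟨i, h⟩, by
        intro i hi
        simp [hi]⟩
      map_add' := by
        intro a b
        ext i
        by_cases h : i ∈ S
        · simp [h]
        · simp [h]
      map_smul' := by
        intro c a
        ext i
        by_cases h : i ∈ S
        · simp [h]
        · simp [h] }
  have hT : Function.Injective T := by
    intro g g' hgg
    ext ⟨i, hi⟩
    have h2 := congrFun (congrArg Subtype.val hgg) i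
    simp only [T, LinearMap.coe_mk, AddHom.coe_mk] at h2
    have hi' : i ∉ S := hi
    rw [dif_neg hi', dif_neg hi'] at h2
    exact h2
  calc #(I → ℝ) = #((Sᶜ : Set I) → ℝ) := by
        rw [← power_def, ← power_def, h1]
    _ = Module.rank ℝ ((Sᶜ : Set I) → ℝ) := rank_fun_infinite.symm
    _ ≤ _ := LinearMap.rank_le_of_injective T hT

/-- The two key properties of the subspaces that we construct. -/
structure Good {I : Type} (W : Submodule ℝ (I → ℝ)) : Prop where
  dense : ∀ M : Submodule ℝ (I → ℝ), Big M →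
    ∃ D : Set (I → ℝ), D.Countable ∧ D ⊆ W ∧ D ⊆ M ∧ (M : Set (I → ℝ)) ⊆ closure D
  full : ∀ (S : Set I), S.Countable → ∀ z : I → ℝ, ∃ w ∈ W, ∀ i ∈ S, w i = z i

/-- The closed subspaces with uncountable dual. -/
abbrev BigM (I : Type) : Type := {M : Submodule ℝ (I → ℝ) // Big M}

/-- The tasks met in the recursion. -/
abbrev Task (I : Type) : Type :=
  (BigM I × (ℕ × ℕ)) ⊕ ({S : Set I // S.Countable} × (I → ℝ))

theorem card_task {I : Type} [Infinite I] (hI : #I = ℵ₁) : #(Task I) ≤ #(I → ℝ) := by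
  have hc : ℵ₀ ≤ #(I → ℝ) := by
    have : Infinite (I → ℝ) := Pi.infinite_of_left
    exact aleph0_le_mk _
  have h1 : #(BigM I) ≤ #(I → ℝ) := card_big hI
  have h2 : #{S : Set I // S.Countable} ≤ #(I → ℝ) := by
    refine (mk_subtype_le _).trans ?_
    rw [mk_set, card_fun hI, hI]
  have h3 : #(ℕ × ℕ) ≤ #(I → ℝ) := by
    rw [mk_denumerable]; exact hc
  have hmul : #(I → ℝ) * #(I → ℝ) = #(I → ℝ) := mul_eq_self hc
  have hadd : #(I → ℝ) + #(I → ℝ) = #(I → ℝ) := add_eq_self hc
  have h5 : #(BigM I × (ℕ × ℕ)) ≤ #(I → ℝ) := by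
    rw [mk_prod, lift_id, lift_id]
    exact (mul_le_mul' h1 h3).trans hmul.le
  have h6 : #({S : Set I // S.Countable} × (I → ℝ)) ≤ #(I → ℝ) := by
    rw [mk_prod, lift_id, lift_id]
    exact (mul_le_mul' h2 le_rfl).trans hmul.le
  rw [mk_sum, lift_id, lift_id]
  exact (add_le_add h5 h6).trans hadd.le

/-- The base points of the tasks. -/
def taskD {I : Type} (δ : BigM I → ℕ → (I → ℝ)) (t : Task I) : I → ℝ :=
  Sum.elim (fun x : BigM I × (ℕ × ℕ) => δ x.1 x.2.1) (fun x => x.2) t

/-- The directions of the tasks. -/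
def taskN {I : Type} (N : BigM I → ℕ → Submodule ℝ (I → ℝ)) (t : Task I) :
    Submodule ℝ (I → ℝ) :=
  Sum.elim (fun x : BigM I × (ℕ × ℕ) => N x.1 x.2.2) (fun x => van x.1.1) t

/-- Transfinite selection of a family which is linearly independent over the complex numbers
modulo a small complex subspace `L`, from a family of large real affine subspaces. The complex
structure is given by `J`. -/
theorem exists_selection {V κ : Type} [AddCommGroup V] [Module ℝ V] (J : V →ₗ[ℝ] V)
    (hJ : ∀ x, J (J x) = -x)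
    (c : Cardinal) (hc : ℵ₀ ≤ c) (hκ : #κ ≤ c) (L : Submodule ℝ V) (hLJ : ∀ x ∈ L, J x ∈ L)
    (hL : Module.rank ℝ L < c)
    (d : κ → V) (N : κ → Submodule ℝ V) (hN : ∀ k, c ≤ Module.rank ℝ (N k)) :
    ∃ v : κ → V, (∀ k, v k - d k ∈ N k) ∧
      ∀ x : V, L.mkQ x ∈ Submodule.span ℝ (Set.range fun k => L.mkQ (v k)) →
        L.mkQ (J x) ∈ Submodule.span ℝ (Set.range fun k => L.mkQ (v k)) → x ∈ L := by
  classical
  obtain ⟨r, hwo, hr⟩ := Cardinal.exists_ord_eq κ
  let _ : LinearOrder κ := linearOrderOfSTO r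
  have hwf : WellFounded r := hwo.wf
  have key : ∀ (k : κ) (f : ∀ j, r j k → V), ∃ x, x - d k ∈ N k ∧
      x ∉ L ⊔ Submodule.span ℝ (Set.range fun p : {j // r j k} × Bool =>
        if p.2 then J (f p.1.1 p.1.2) else f p.1.1 p.1.2) := by
    intro k f
    by_contra hcon
    push Not at hcon
    set U := L ⊔ Submodule.span ℝ (Set.range fun p : {j // r j k} × Bool =>
        if p.2 then J (f p.1.1 p.1.2) else f p.1.1 p.1.2) with hU
    have hdU : d k ∈ U := hcon (d k) (by simp)
    have hNU : N k ≤ U := by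
      intro n hn
      have h1 : n + d k ∈ U := hcon (n + d k) (by simpa using hn)
      simpa using U.sub_mem h1 hdU
    have h2 : Module.rank ℝ (N k) ≤ Module.rank ℝ U := Submodule.rank_mono hNU
    have h3 : Module.rank ℝ U ≤ Module.rank ℝ L + #({j // r j k} × Bool) :=
      (Submodule.rank_add_le_rank_add_rank _ _).trans
        (add_le_add le_rfl ((rank_span_le _).trans Cardinal.mk_range_le))
    have h4 : #{j // r j k} < #κ := by
      have := Cardinal.card_typein_lt (r := r) k hr
      rwa [Ordinal.card_typein] at this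
    have h4' : #({j // r j k} × Bool) < c := by
      rw [mk_prod, lift_id, lift_id]
      exact mul_lt_of_lt hc (h4.trans_le hκ) ((lt_aleph0_of_finite Bool).trans_le hc)
    have h5 : Module.rank ℝ L + #({j // r j k} × Bool) < c :=
      Cardinal.add_lt_of_lt hc hL h4'
    exact absurd ((hN k).trans (h2.trans h3)) (not_le.mpr h5)
  choose g hg1 hg2 using key
  let v : κ → V := hwf.fix g
  have hv : ∀ k, v k = g k (fun j _ => v j) := fun k => hwf.fix_eq g k
  refine ⟨v, fun k => by rw [hv k]; exact hg1 _ _, ?_⟩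
  -- the spans of the previous vectors
  let U : κ → Submodule ℝ V := fun k =>
    L ⊔ Submodule.span ℝ (Set.range fun p : {j // r j k} × Bool =>
      if p.2 then J (v p.1.1) else v p.1.1)
  have hUk : ∀ k, v k ∉ U k := by
    intro k
    have h5 := hg2 k (fun j _ => v j)
    rw [← hv k] at h5
    exact h5
  have hUJ : ∀ k, ∀ x ∈ U k, J x ∈ U k := by
    intro k x hx
    have h1 : U k ≤ (U k).comap J := by
      refine sup_le (fun y hy => ?_) ?_
      · exact Submodule.mem_sup_left (hLJ y hy)
      · rw [Submodule.span_le]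
        rintro _ ⟨⟨j, b⟩, rfl⟩
        cases b
        · exact Submodule.mem_sup_right (Submodule.subset_span ⟨(j, true), by simp⟩)
        · change J (if (true : Bool) = true then J (v j.1) else v j.1) ∈ U k
          rw [if_pos rfl, hJ]
          exact Submodule.mem_sup_right (Submodule.neg_mem _
            (Submodule.subset_span ⟨(j, false), by simp⟩))
    exact h1 hx
  have hvU : ∀ j k, r j k → v j ∈ U k ∧ J (v j) ∈ U k := by
    intro j k hjk
    exact ⟨Submodule.mem_sup_right (Submodule.subset_span ⟨(⟨j, hjk⟩, false), by simp⟩),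
      Submodule.mem_sup_right (Submodule.subset_span ⟨(⟨j, hjk⟩, true), by simp⟩)⟩
  -- the main argument
  have main : ∀ (a b : κ →₀ ℝ), (Finsupp.linearCombination ℝ v a +
      Finsupp.linearCombination ℝ (fun k => J (v k)) b) ∈ L → a = 0 ∧ b = 0 := by
    intro a b hab
    by_contra hne
    have hs : (a.support ∪ b.support).Nonempty := by
      by_contra hemp
      rw [Finset.not_nonempty_iff_eq_empty, Finset.union_eq_empty] at hemp
      exact hne ⟨Finsupp.support_eq_empty.mp hemp.1, Finsupp.support_eq_empty.mp hemp.2⟩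
    set s := a.support ∪ b.support with hsdef
    let k := s.max' hs
    have hk : k ∈ s := s.max'_mem hs
    have ha' : Finsupp.linearCombination ℝ v a = ∑ j ∈ s, a j • v j := by
      rw [Finsupp.linearCombination_apply]
      exact Finsupp.sum_of_support_subset _ Finset.subset_union_left _ (by simp)
    have hb' : Finsupp.linearCombination ℝ (fun k => J (v k)) b = ∑ j ∈ s, b j • J (v j) := by
      rw [Finsupp.linearCombination_apply]
      exact Finsupp.sum_of_support_subset _ Finset.subset_union_right _ (by simp)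
    rw [ha', hb', ← Finset.add_sum_erase _ _ hk, ← Finset.add_sum_erase _ _ hk] at hab
    have hprev : ∀ j ∈ s.erase k, v j ∈ U k ∧ J (v j) ∈ U k := by
      intro j hj
      rw [Finset.mem_erase] at hj
      exact hvU j k (lt_of_le_of_ne (s.le_max' j hj.2) hj.1)
    have h1 : ∑ j ∈ s.erase k, a j • v j ∈ U k :=
      Submodule.sum_mem _ fun j hj => Submodule.smul_mem _ _ (hprev j hj).1
    have h2 : ∑ j ∈ s.erase k, b j • J (v j) ∈ U k :=
      Submodule.sum_mem _ fun j hj => Submodule.smul_mem _ _ (hprev j hj).2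
    have hLU : L ≤ U k := le_sup_left
    have h3 : a k • v k + b k • J (v k) ∈ U k := by
      have h4 := (U k).sub_mem (hLU hab) ((U k).add_mem h1 h2)
      have h5 : a k • v k + ∑ x ∈ s.erase k, a x • v x +
          (b k • J (v k) + ∑ x ∈ s.erase k, b x • J (v x)) -
          (∑ x ∈ s.erase k, a x • v x + ∑ x ∈ s.erase k, b x • J (v x)) =
          a k • v k + b k • J (v k) := by abel
      rwa [h5] at h4
    have h6 : J (a k • v k + b k • J (v k)) ∈ U k := hUJ k _ h3
    have h7 : (a k ^ 2 + b k ^ 2) • v k ∈ U k := by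
      have h8 : (a k ^ 2 + b k ^ 2) • v k =
          a k • (a k • v k + b k • J (v k)) - b k • J (a k • v k + b k • J (v k)) := by
        rw [map_add, map_smul, map_smul, hJ]
        module
      rw [h8]
      exact (U k).sub_mem ((U k).smul_mem _ h3) ((U k).smul_mem _ h6)
    have h9 : a k ^ 2 + b k ^ 2 ≠ 0 := by
      intro h0
      have ha0 : a k = 0 := by nlinarith [sq_nonneg (a k), sq_nonneg (b k)]
      have hb0 : b k = 0 := by nlinarith [sq_nonneg (a k), sq_nonneg (b k)]
      rw [hsdef, Finset.mem_union, Finsupp.mem_support_iff, Finsupp.mem_support_iff] at hk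
      rcases hk with hk | hk
      · exact hk ha0
      · exact hk hb0
    apply hUk k
    have h10 := (U k).smul_mem (a k ^ 2 + b k ^ 2)⁻¹ h7
    rwa [smul_smul, inv_mul_cancel₀ h9, one_smul] at h10
  intro x hx1 hx2
  rw [Finsupp.mem_span_range_iff_exists_finsupp] at hx1 hx2
  obtain ⟨a, ha⟩ := hx1
  obtain ⟨b, hb⟩ := hx2
  have ha1 : x - Finsupp.linearCombination ℝ v a ∈ L := by
    rw [← Submodule.ker_mkQ L, LinearMap.mem_ker, map_sub, sub_eq_zero, ← ha,
      Finsupp.linearCombination_apply, map_finsuppSum]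
    simp
  have hb1 : J x - Finsupp.linearCombination ℝ v b ∈ L := by
    rw [← Submodule.ker_mkQ L, LinearMap.mem_ker, map_sub, sub_eq_zero, ← hb,
      Finsupp.linearCombination_apply, map_finsuppSum]
    simp
  have hJa : J x - Finsupp.linearCombination ℝ (fun k => J (v k)) a ∈ L := by
    have h1 := hLJ _ ha1
    rw [map_sub] at h1
    have h2 : J (Finsupp.linearCombination ℝ v a) =
        Finsupp.linearCombination ℝ (fun k => J (v k)) a := by
      rw [Finsupp.linearCombination_apply, Finsupp.linearCombination_apply, map_finsuppSum]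
      simp
    rwa [h2] at h1
  have h3 : (Finsupp.linearCombination ℝ v (-b) +
      Finsupp.linearCombination ℝ (fun k => J (v k)) a) ∈ L := by
    have h4 := L.sub_mem hb1 hJa
    rw [map_neg]
    have h5 : J x - Finsupp.linearCombination ℝ v b -
        (J x - Finsupp.linearCombination ℝ (fun k => J (v k)) a) =
        -Finsupp.linearCombination ℝ v b + Finsupp.linearCombination ℝ (fun k => J (v k)) a := by
      abel
    rwa [h5] at h4
  have h6 := (main _ _ h3).2
  rw [h6, map_zero, sub_zero] at ha1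
  exact ha1

/-- A good subspace meeting its image under the complex structure exactly in the finitely
supported functions. -/
theorem exists_good {I : Type} (hI : #I = ℵ₁) (J : (I → ℝ) →ₗ[ℝ] (I → ℝ))
    (hJ : ∀ x, J (J x) = -x) (hJf : ∀ x ∈ fin I, J x ∈ fin I) :
    ∃ G : Submodule ℝ (I → ℝ), Good G ∧ fin I ≤ G ∧ ∀ x ∈ G, J x ∈ G → x ∈ fin I := by
  classical
  have hinf : Infinite I := by
    rw [← aleph0_le_mk_iff, hI]; exact aleph0_lt_aleph_one.le
  have hIc : #I ≤ 𝔠 := by rw [hI]; exact aleph_one_le_continuum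
  have hc : ℵ₀ ≤ #(I → ℝ) := by
    have : Infinite (I → ℝ) := Pi.infinite_of_left
    exact aleph0_le_mk _
  -- dense sequences and null subspaces
  have hδ : ∀ M : BigM I, ∃ δ : ℕ → (I → ℝ), (∀ k, δ k ∈ M.1) ∧
        (M.1 : Set (I → ℝ)) ⊆ closure (Set.range δ) := fun M => exists_dense hIc M.1 M.2.1
  choose δ hδM hδd using hδ
  have hN : ∀ M : BigM I, ∃ N : ℕ → Submodule ℝ (I → ℝ), (∀ l, N l ≤ M.1) ∧
      (∀ l, #(I → ℝ) ≤ Module.rank ℝ (N l)) ∧
      ∀ i, ∃ l₀, ∀ l, l₀ ≤ l → ∀ x ∈ N l, x i = 0 :=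
    fun M => exists_null M.1 M.2.1 hI M.2.2
  choose N hNM hNr hNz using hN
  obtain ⟨v, hv, hvJ⟩ := exists_selection J hJ (#(I → ℝ)) hc (card_task hI) (fin I) hJf
    (rank_fin hI) (taskD δ) (taskN N) (by
      rintro (x | x)
      · exact hNr x.1 x.2.2
      · exact rank_van hI x.1.1 x.1.2)
  let G : Submodule ℝ (I → ℝ) :=
    (Submodule.span ℝ (Set.range fun t => (fin I).mkQ (v t))).comap (fin I).mkQ
  have hvG : ∀ t, v t ∈ G := by
    intro t
    rw [Submodule.mem_comap]
    exact Submodule.subset_span ⟨t, rfl⟩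
  refine ⟨G, ⟨?_, ?_⟩, ?_, ?_⟩
  · intro M hM
    have hs : ∀ p : ℕ × ℕ, v (Sum.inl (⟨M, hM⟩, (p.1, p.2))) - δ ⟨M, hM⟩ p.1
        ∈ N ⟨M, hM⟩ p.2 := fun p => hv (Sum.inl (⟨M, hM⟩, (p.1, p.2)))
    refine ⟨Set.range fun p : ℕ × ℕ => v (Sum.inl (⟨M, hM⟩, (p.1, p.2))),
      Set.countable_range _, ?_, ?_, ?_⟩
    · rintro _ ⟨p, rfl⟩
      exact hvG _
    · rintro _ ⟨p, rfl⟩
      have h1 := hNM ⟨M, hM⟩ p.2 (hs p)
      have h2 := M.add_mem h1 (hδM ⟨M, hM⟩ p.1)
      rw [sub_add_cancel] at h2
      exact h2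
    · refine (hδd ⟨M, hM⟩).trans (closure_minimal ?_ isClosed_closure)
      rintro _ ⟨k, rfl⟩
      refine mem_closure_of_tendsto
        (f := fun l : ℕ => v (Sum.inl (⟨M, hM⟩, (k, l)))) (b := Filter.atTop) ?_
        (Filter.Eventually.of_forall fun l => ⟨(k, l), rfl⟩)
      rw [tendsto_pi_nhds]
      intro i
      obtain ⟨l₀, hl₀⟩ := hNz ⟨M, hM⟩ i
      refine tendsto_const_nhds.congr' ?_
      filter_upwards [Filter.eventually_ge_atTop l₀] with l hl
      have h3 := hl₀ l hl _ (hs (k, l))
      rw [Pi.sub_apply] at h3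
      exact (sub_eq_zero.mp h3).symm
  · intro S hS z
    refine ⟨v (Sum.inr (⟨S, hS⟩, z)), hvG _, ?_⟩
    intro i hi
    have h2 := hv (Sum.inr (⟨S, hS⟩, z)) i hi
    rw [Pi.sub_apply] at h2
    exact sub_eq_zero.mp h2
  · intro x hx
    rw [Submodule.mem_comap]
    have : (fin I).mkQ x = 0 := by
      rw [Submodule.mkQ_apply, Submodule.Quotient.mk_eq_zero]; exact hx
    rw [this]
    exact Submodule.zero_mem _
  · intro x hx hJx
    exact hvJ x hx hJx

end Pool.Agent.H865.RB
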