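import Mathlib
import Pool.Agent.H865.RB.B

set_option autoImplicit false

namespace Pool.Agent.H865.RB

open Cardinal TopologicalSpace

theorem separable_of_inducing {X Y : Type*} [TopologicalSpace X] [TopologicalSpace Y] (j : Y → X)
    (hj : Topology.IsInducing j) (hinj : Function.Injective j) (D : Set X) (hD : D.Countable)
    (h1 : D ⊆ Set.range j) (h2 : Set.range j ⊆ closure D) : SeparableSpace Y := by
  refine ⟨⟨j ⁻¹' D, hD.preimage hinj, ?_⟩⟩
  rw [hj.dense_iff]
  intro x
  rw [Set.image_preimage_eq_of_subset h1]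
  exact h2 ⟨x, rfl⟩

/-- Finite linear combinations of coordinates are continuous. -/
theorem continuous_comb {I : Type} (n : I →₀ ℝ) :
    Continuous fun x : I → ℝ => Finsupp.linearCombination ℝ x n := by
  have : (fun x : I → ℝ => Finsupp.linearCombination ℝ x n)
      = fun x => ∑ a ∈ n.support, n a • x a := by
    ext x
    rw [Finsupp.linearCombination_apply, Finsupp.sum]
  rw [this]
  refine continuous_finsetSum _ fun a _ => ?_
  exact (continuous_apply a).const_smul (n a)

theorem good_separable {I : Type} {W : Submodule ℝ (I → ℝ)} (hW : Good W)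
    (K : Submodule ℝ W) (hK : IsClosed (K : Set W)) : SeparableSpace K := by
  classical
  let K' : Submodule ℝ (I → ℝ) := K.map W.subtype
  let M : Submodule ℝ (I → ℝ) := K'.topologicalClosure
  have hMc : IsClosed (M : Set (I → ℝ)) := K'.isClosed_topologicalClosure
  have hK'M : (K' : Set (I → ℝ)) ⊆ M := K'.le_topologicalClosure
  have hmem : ∀ x ∈ M, x ∈ W → x ∈ K' := by
    intro x hxM hxW
    have h1 : (⟨x, hxW⟩ : W) ∈ closure (K : Set W) := by
      rw [Topology.IsInducing.subtypeVal.closure_eq_preimage_closure_image]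
      exact hxM
    rw [hK.closure_eq] at h1
    exact ⟨⟨x, hxW⟩, h1, rfl⟩
  have hind : Topology.IsInducing (fun k : K => ((k : W) : I → ℝ)) :=
    Topology.IsInducing.subtypeVal.comp Topology.IsInducing.subtypeVal
  by_cases hM : Big M
  · obtain ⟨D, hD, hDW, hDM, hMD⟩ := hW.dense M hM
    refine separable_of_inducing (fun k : K => ((k : W) : I → ℝ)) hind
      (Subtype.val_injective.comp Subtype.val_injective) D hD ?_ ?_
    · intro d hd
      obtain ⟨y, hy, rfl⟩ := hmem d (hDM hd) (hDW hd)
      exact ⟨⟨y, hy⟩, rfl⟩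
    · rintro _ ⟨k, rfl⟩
      exact hMD (hK'M ⟨k, k.2, rfl⟩)
  · have hX : Module.rank ℝ ((I →₀ ℝ) ⧸ ann M) ≤ ℵ₀ := by
      by_contra hc
      exact hM ⟨hMc, not_le.mp hc⟩
    let b := Module.Basis.ofVectorSpace ℝ ((I →₀ ℝ) ⧸ ann M)
    let β := Module.Basis.ofVectorSpaceIndex ℝ ((I →₀ ℝ) ⧸ ann M)
    have hβ : Countable β := by
      rw [← mk_le_aleph0_iff, b.mk_eq_rank'']; exact hX
    let J : K → (β → ℝ) := fun k q =>
      Finsupp.linearCombination ℝ ((k : W) : I → ℝ) (Quotient.out (b q))
    let Ψ : (β → ℝ) → (I → ℝ) := fun f i =>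
      Finsupp.linearCombination ℝ f (b.repr (Submodule.Quotient.mk (Finsupp.single i 1)))
    have hΨ : Continuous Ψ := continuous_pi fun i => continuous_comb (I := β) _
    have hJ : Continuous J := continuous_pi fun q =>
      (continuous_comb (Quotient.out (b q))).comp hind.continuous
    have hΨJ : Ψ ∘ J = fun k : K => ((k : W) : I → ℝ) := by
      ext k i
      have hkM : ((k : W) : I → ℝ) ∈ M := hK'M ⟨k, k.2, rfl⟩
      -- the functional on the quotient given by `k`
      let φ : ((I →₀ ℝ) ⧸ ann M) →ₗ[ℝ] ℝ :=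
        (ann M).liftQ (Finsupp.linearCombination ℝ ((k : W) : I → ℝ)) (fun n hn => hn _ hkM)
      have hφ : ∀ n : I →₀ ℝ, φ (Submodule.Quotient.mk n) =
          Finsupp.linearCombination ℝ ((k : W) : I → ℝ) n := fun n => rfl
      have hφb : ∀ q : β, J k q = φ (b q) := by
        intro q
        have h1 : (Submodule.Quotient.mk (Quotient.out (b q)) : (I →₀ ℝ) ⧸ ann M) = b q :=
          Quotient.out_eq' _
        change Finsupp.linearCombination ℝ ((k : W) : I → ℝ) (Quotient.out (b q)) = _
        rw [← hφ, h1]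
      change Finsupp.linearCombination ℝ (J k) (b.repr (Submodule.Quotient.mk
        (Finsupp.single i 1))) = _
      have h2 : Finsupp.linearCombination ℝ (J k) (b.repr (Submodule.Quotient.mk
          (Finsupp.single i 1))) = φ (Submodule.Quotient.mk (Finsupp.single i 1)) := by
        conv_rhs => rw [← b.linearCombination_repr (Submodule.Quotient.mk (Finsupp.single i 1))]
        rw [Finsupp.linearCombination_apply, Finsupp.linearCombination_apply, map_finsuppSum]
        refine Finsupp.sum_congr fun q _ => ?_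
        rw [map_smul, hφb q]
      rw [h2, hφ]
      simp
    have hJi : Topology.IsInducing J := by
      refine Topology.IsInducing.of_comp hJ hΨ ?_
      rw [hΨJ]
      exact hind
    have : SecondCountableTopology K := hJi.secondCountableTopology
    infer_instance

/-- A pseudo-base: a family of nonempty open sets such that every nonempty open set contains a
member of the family. -/
def IsPiBase {X : Type} [TopologicalSpace X] (B : Set (Set X)) : Prop :=
  (∀ U ∈ B, IsOpen U ∧ U.Nonempty) ∧ ∀ V : Set X, IsOpen V → V.Nonempty → ∃ U ∈ B, U ⊆ V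

/-- Pseudocomplete spaces in the sense of Oxtoby. -/
structure Pseudocomplete (X : Type) [TopologicalSpace X] : Prop where
  quasiRegular : ∀ U : Set X, IsOpen U → U.Nonempty →
    ∃ V : Set X, IsOpen V ∧ V.Nonempty ∧ closure V ⊆ U
  complete : ∃ B : ℕ → Set (Set X), (∀ n, IsPiBase (B n)) ∧
    ∀ U : ℕ → Set X, (∀ n, U n ∈ B n) → (∀ n, closure (U (n + 1)) ⊆ U n) → (⋂ n, U n).Nonempty

theorem good_pseudocomplete {I : Type} {W : Submodule ℝ (I → ℝ)} (hW : Good W) :
    Pseudocomplete W := by
  classical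
  let box : Finset I → (I → ℝ) → (I → ℝ) → Set W := fun F a b =>
    {w | ∀ i ∈ F, a i < (w : I → ℝ) i ∧ (w : I → ℝ) i < b i}
  have hopen : ∀ F a b, IsOpen (box F a b) := by
    intro F a b
    have : box F a b = ⋂ i ∈ F, {w : W | a i < (w : I → ℝ) i ∧ (w : I → ℝ) i < b i} := by
      ext w; simp [box]
    rw [this]
    refine isOpen_biInter_finset fun i _ => ?_
    have hc : Continuous fun w : W => (w : I → ℝ) i :=
      (continuous_apply i).comp continuous_subtype_val
    exact (isOpen_lt continuous_const hc).inter (isOpen_lt hc continuous_const)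
  have hne : ∀ F a b, (∀ i ∈ F, a i < b i) → (box F a b).Nonempty := by
    intro F a b h
    obtain ⟨w, hw, hwF⟩ := hW.full (F : Set I) (Finset.countable_toSet _) (fun i => (a i + b i) / 2)
    refine ⟨⟨w, hw⟩, fun i hi => ?_⟩
    change a i < w i ∧ w i < b i
    rw [hwF i hi]
    have := h i hi
    constructor <;> linarith
  refine ⟨?_, fun _ => {U | ∃ F a b, (∀ i ∈ F, a i < b i) ∧ U = box F a b}, fun n => ⟨?_, ?_⟩, ?_⟩
  · intro U hU ⟨x, hx⟩
    obtain ⟨C, hC, hCc, hCU⟩ := exists_mem_nhds_isClosed_subset (hU.mem_nhds hx)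
    exact ⟨interior C, isOpen_interior, ⟨x, mem_interior_iff_mem_nhds.mpr hC⟩,
      (closure_minimal interior_subset hCc).trans hCU⟩
  · rintro U ⟨F, a, b, h, rfl⟩
    exact ⟨hopen F a b, hne F a b h⟩
  · intro V hV ⟨x, hx⟩
    obtain ⟨V', hV', rfl⟩ := isOpen_induced_iff.mp hV
    obtain ⟨F, u, hu, hsub⟩ := isOpen_pi_iff.mp hV' x hx
    have hε : ∀ i : I, ∃ ε : ℝ, 0 < ε ∧ (i ∈ F → Set.Ioo ((x : I → ℝ) i - ε) ((x : I → ℝ) i + ε) ⊆ u i) := by
      intro i
      by_cases hi : i ∈ F
      · obtain ⟨ε, hε, hball⟩ := Metric.isOpen_iff.mp (hu i hi).1 _ (hu i hi).2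
        refine ⟨ε, hε, fun _ => ?_⟩
        rw [← Real.ball_eq_Ioo]; exact hball
      · exact ⟨1, one_pos, fun h => absurd h hi⟩
    choose ε hε0 hε using hε
    refine ⟨box F (fun i => (x : I → ℝ) i - ε i) (fun i => (x : I → ℝ) i + ε i),
      ⟨F, _, _, fun i _ => by linarith [hε0 i], rfl⟩, ?_⟩
    intro w hw
    refine hsub ?_
    intro i hi
    exact hε i hi ⟨(hw i hi).1, (hw i hi).2⟩
  · intro U hU hcl
    choose F a b hab hUb using hU
    have hUn : ∀ n, (U n).Nonempty := fun n => by rw [hUb n]; exact hne _ _ _ (hab n)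
    choose x hx using hUn
    have hmono : ∀ m n, m ≤ n → U n ⊆ U m := by
      intro m n hmn
      induction n, hmn using Nat.le_induction with
      | base => exact subset_rfl
      | succ n _ ih => exact (subset_closure.trans (hcl n)).trans ih
    -- points in closed boxes are in the closure of the open box
    have hclosure : ∀ (F : Finset I) (a b : I → ℝ), (∀ i ∈ F, a i < b i) → ∀ w : W,
        (∀ i ∈ F, (w : I → ℝ) i ∈ Set.Icc (a i) (b i)) → w ∈ closure (box F a b) := by
      intro F a b h w hw
      obtain ⟨c, hc, hcF⟩ := hW.full (F : Set I) (Finset.countable_toSet _)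
        (fun i => (a i + b i) / 2)
      let f : ℕ → W := fun n => w + (1 / ((n : ℝ) + 1)) • ((⟨c, hc⟩ : W) - w)
      have hf : Filter.Tendsto f Filter.atTop (nhds w) := by
        have h1 : Filter.Tendsto (fun n : ℕ => (1 / ((n : ℝ) + 1))) Filter.atTop (nhds 0) :=
          tendsto_one_div_add_atTop_nhds_zero_nat
        have h2 := (h1.smul_const ((⟨c, hc⟩ : W) - w)).const_add w
        rw [zero_smul, add_zero] at h2
        exact h2
      refine mem_closure_of_tendsto hf (Filter.Eventually.of_forall fun n => ?_)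
      intro i hi
      have ht0 : (0 : ℝ) < 1 / ((n : ℝ) + 1) := by positivity
      have ht1 : 1 / ((n : ℝ) + 1) ≤ (1 : ℝ) := by
        rw [div_le_one (by positivity)]
        have : (0 : ℝ) ≤ n := by positivity
        linarith
      have hval : ((f n : W) : I → ℝ) i =
          (w : I → ℝ) i + (1 / ((n : ℝ) + 1)) * ((a i + b i) / 2 - (w : I → ℝ) i) := by
        have h3 : c i = (a i + b i) / 2 := hcF i hi
        rw [← h3]
        rfl
      rw [hval]
      obtain ⟨hw1, hw2⟩ := hw i hi
      have hlt := h i hi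
      set t := 1 / ((n : ℝ) + 1)
      constructor
      · nlinarith
      · nlinarith
    let S : Set I := ⋃ n, (F n : Set I)
    have hS : S.Countable := Set.countable_iUnion fun n => (F n).countable_toSet
    have hmem : ∀ m n, m ≤ n → ∀ i ∈ F m, (x n : I → ℝ) i ∈ Set.Icc (a m i) (b m i) := by
      intro m n hmn i hi
      have h1 := hmono m n hmn (hx n)
      rw [hUb m] at h1
      exact ⟨(h1 i hi).1.le, (h1 i hi).2.le⟩
    have hz : ∀ i : I, ∃ z : ℝ, i ∈ S →
        Filter.Tendsto (fun n => (x n : I → ℝ) i) (Filter.hyperfilter ℕ) (nhds z) := by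
      intro i
      by_cases hi : i ∈ S
      · obtain ⟨m, hm⟩ := Set.mem_iUnion.mp hi
        let u : Ultrafilter ℝ := (Filter.hyperfilter ℕ).map fun n => (x n : I → ℝ) i
        have hu : (u : Filter ℝ) ≤ Filter.principal (Set.Icc (a m i) (b m i)) := by
          rw [Filter.le_principal_iff]
          change ∀ᶠ n in (Filter.hyperfilter ℕ : Filter ℕ), (x n : I → ℝ) i ∈ Set.Icc (a m i) (b m i)
          have h1 : ∀ᶠ n : ℕ in (Filter.atTop : Filter ℕ), (x n : I → ℝ) i ∈ Set.Icc (a m i) (b m i) := by
            filter_upwards [Filter.eventually_ge_atTop m] with n hn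
            exact hmem m n hn i hm
          exact Nat.hyperfilter_le_atTop h1
        obtain ⟨z, -, hz⟩ := isCompact_Icc.ultrafilter_le_nhds u hu
        exact ⟨z, fun _ => hz⟩
      · exact ⟨0, fun h => absurd h hi⟩
    choose z hz using hz
    obtain ⟨w, hw, hwz⟩ := hW.full S hS z
    refine ⟨⟨w, hw⟩, Set.mem_iInter.mpr fun m => hcl m ?_⟩
    rw [hUb (m + 1)]
    refine hclosure _ _ _ (hab (m + 1)) _ fun i hi => ?_
    have hiS : i ∈ S := Set.mem_iUnion.mpr ⟨m + 1, hi⟩
    change w i ∈ _
    rw [hwz i hiS]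
    refine isClosed_Icc.mem_of_tendsto (hz i hiS) ?_
    have h1 : ∀ᶠ n : ℕ in (Filter.atTop : Filter ℕ),
        (x n : I → ℝ) i ∈ Set.Icc (a (m + 1) i) (b (m + 1) i) := by
      filter_upwards [Filter.eventually_ge_atTop (m + 1)] with n hn
      exact hmem (m + 1) n hn i hi
    exact Nat.hyperfilter_le_atTop h1

/-- The functions with at most `n` nonzero values, all of absolute value at most `n`. -/
def ball (I : Type) (n : ℕ) : Set (I → ℝ) :=
  {x | ∀ T : Finset I, (∀ i ∈ T, x i ≠ 0) → T.card ≤ n} ∩
    Set.pi Set.univ fun _ => Set.Icc (-(n : ℝ)) n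

theorem isCompact_ball (I : Type) (n : ℕ) : IsCompact (ball I n) := by
  refine IsCompact.inter_left (isCompact_univ_pi fun _ => isCompact_Icc) ?_
  have : {x : I → ℝ | ∀ T : Finset I, (∀ i ∈ T, x i ≠ 0) → T.card ≤ n} =
      ⋂ T : {T : Finset I // n < T.card}, ⋃ i ∈ T.1, {x : I → ℝ | x i = 0} := by
    ext x
    simp only [Set.mem_ofPred_eq, Set.mem_iInter, Set.mem_iUnion, Subtype.forall]
    constructor
    · intro h T hT
      by_contra hcon
      push Not at hcon
      exact absurd (h T hcon) (not_le.mpr hT)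
    · intro h T hT
      by_contra hcon
      obtain ⟨i, hi, hxi⟩ := h T (not_le.mp hcon)
      exact hT i hi hxi
  rw [this]
  refine isClosed_iInter fun T => ?_
  refine T.1.finite_toSet.isClosed_biUnion fun i _ => ?_
  exact isClosed_eq (continuous_apply i) continuous_const

theorem ball_subset (I : Type) (n : ℕ) : ball I n ⊆ fin I := by
  intro x hx
  change {i | x i ≠ 0}.Finite
  by_contra hinf
  obtain ⟨T, hT, hTc⟩ := Set.Infinite.exists_subset_card_eq hinf (n + 1)
  have := hx.1 T (fun i hi => hT hi)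
  omega

theorem mem_ball_of_mem_fin {I : Type} {x : I → ℝ} (hx : x ∈ fin I) : ∃ n, x ∈ ball I n := by
  classical
  have hx' : {i | x i ≠ 0}.Finite := hx
  obtain ⟨n, hn⟩ := exists_nat_ge (∑ i ∈ hx'.toFinset, |x i|)
  refine ⟨max hx'.toFinset.card n, fun T hT => ?_, fun i _ => ?_⟩
  · exact (Finset.card_le_card fun i hi => by
      rw [Set.Finite.mem_toFinset]
      exact hT i hi).trans (le_max_left _ _)
  · have h1 : |x i| ≤ ((max hx'.toFinset.card n : ℕ) : ℝ) := by
      by_cases hi : x i = 0
      · rw [hi, abs_zero]; positivity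
      · have h2 : |x i| ≤ ∑ i ∈ hx'.toFinset, |x i| :=
          Finset.single_le_sum (f := fun i => |x i|) (fun _ _ => abs_nonneg _)
            (by rw [Set.Finite.mem_toFinset]; exact hi)
        have h3 : (n : ℝ) ≤ ((max hx'.toFinset.card n : ℕ) : ℝ) := by
          exact_mod_cast le_max_right _ _
        linarith
    exact abs_le.mp h1

/-- Multiplication by `i` on the real functions on `I × Bool`. -/
def JJ (I : Type) : (I × Bool → ℝ) →ₗ[ℝ] (I × Bool → ℝ) where
  toFun x p := if p.2 then x (p.1, false) else -x (p.1, true)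
  map_add' x y := by
    ext ⟨i, b⟩
    cases b
    · simp; ring
    · simp
  map_smul' c x := by
    ext ⟨i, b⟩
    cases b
    · simp
    · simp

theorem JJ_JJ (I : Type) (x : I × Bool → ℝ) : JJ I (JJ I x) = -x := by
  ext ⟨i, b⟩
  cases b
  · simp [JJ]
  · simp [JJ]

theorem continuous_JJ (I : Type) : Continuous (JJ I) := by
  refine continuous_pi fun p => ?_
  obtain ⟨i, b⟩ := p
  cases b
  · change Continuous fun x : I × Bool → ℝ => -x (i, true)
    exact (continuous_apply _).neg
  · change Continuous fun x : I × Bool → ℝ => x (i, false)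
    exact continuous_apply _

theorem JJ_fin (I : Type) : ∀ x ∈ fin (I × Bool), JJ I x ∈ fin (I × Bool) := by
  intro x hx
  have hx' : {i | x i ≠ 0}.Finite := hx
  change {p | JJ I x p ≠ 0}.Finite
  have hinj : Function.Injective fun p : I × Bool => (p.1, !p.2) := by
    rintro ⟨i, b⟩ ⟨j, c⟩ h
    simp only [Prod.mk.injEq, Bool.not_inj_iff] at h
    exact Prod.ext h.1 h.2
  refine (hx'.preimage hinj.injOn).subset ?_
  rintro ⟨i, b⟩ hp
  cases b
  · intro h
    apply hp
    have h' : x (i, true) = 0 := h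
    change -x (i, true) = 0
    rw [h', neg_zero]
  · intro h
    apply hp
    exact h

end Pool.Agent.H865.RB
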